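import Pool.Agent.Q204.UC.Main

/-!
# Uniform certification: the promise of purity cannot be removed

There is a state of six qubits (a singlet of the total spin) which is determined by the data of all
uniform measurements among the pure states, but not among all states.
-/

namespace Pool.Agent.Results.MP_baa5e6_mp.SixSpinSinglet

open Pool.Agent.Q204.UC

/-- **Theorem** (negative answer to Q1). There is a unit vector `ψ` of six qubits which is uniformly
certifiable under the promise that the state is pure, but not without a promise. Hence it is not
true that for all `N` and all unit vectors the first kind of certifiability implies the second. -/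
theorem result :
    (∃ ψ : Str 6 → ℂ, UnitVec ψ ∧ Certifiable (pureStates 6) ψ ∧ ¬ Certifiable (allStates 6) ψ) ∧
    ¬ ∀ N : ℕ, 1 ≤ N → ∀ ψ : Str N → ℂ, UnitVec ψ → Certifiable (pureStates N) ψ →
      Certifiable (allStates N) ψ :=
  ⟨⟨ψ0, ψ0_unit, pure_certifiable, not_certifiable⟩,
    fun h => not_certifiable (h 6 (by norm_num) ψ0 ψ0_unit pure_certifiable)⟩

end Pool.Agent.Results.MP_baa5e6_mp.SixSpinSinglet
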